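import Pool.Agent.Lib.MP_16285c_agN.DEG4a.Spec

/-!
# Finitely many totally invariant hypersurfaces
-/

set_option autoImplicit false

namespace Pool.Agent.Lib.MP_16285c_agN

namespace CanM

open scoped IntermediateField.algebraAdjoinAdjoin

variable {n : ℕ} {K : Type} [Field K]

private theorem fr_inj : Function.Injective (fr (n := n) (K := K)) :=
  IsFractionRing.injective (MvPolynomial (Fin n) K) (FractionRing (MvPolynomial (Fin n) K))

private theorem fr_ne {G : Pl n K} (h : G ≠ 0) : fr G ≠ 0 := by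
  intro h0
  exact h (fr_inj (h0.trans (map_zero _).symm))

private theorem fr_const (c : K) : fr (MvPolynomial.C c : Pl n K) = algebraMap K (RF n K) c := by
  rw [IsScalarTower.algebraMap_apply K (MvPolynomial (Fin n) K) (RF n K)]
  rfl

/-- The coordinate functions are algebraically independent. -/
private theorem algInd_gen : AlgebraicIndependent K (gen n K) := by
  have h := MvPolynomial.algebraicIndependent_X (Fin n) K
  have h2 := h.map' (f := IsScalarTower.toAlgHom K (MvPolynomial (Fin n) K) (RF n K))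
    (IsFractionRing.injective (MvPolynomial (Fin n) K) (RF n K))
  exact h2

/-- A polynomial belongs to a subfield containing the coordinates. -/
private theorem fr_mem (L : IntermediateField K (RF n K)) (h : ∀ i, gen n K i ∈ L) (G : Pl n K) :
    fr G ∈ L := by
  induction G using MvPolynomial.induction_on with
  | C a =>
    rw [fr_const]
    exact L.algebraMap_mem a
  | add p q hp hq =>
    rw [fr, map_add]
    exact L.add_mem hp hq
  | mul_X p i hp =>
    rw [fr, map_mul]
    exact L.mul_mem hp (h i)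

private theorem eq_top_of_gen_mem (L : IntermediateField K (RF n K)) (h : ∀ i, gen n K i ∈ L) :
    L = ⊤ := by
  rw [eq_top_iff]
  rintro z -
  obtain ⟨a, b, hb, rfl⟩ := IsFractionRing.div_surjective (A := MvPolynomial (Fin n) K) z
  exact L.div_mem (fr_mem L h a) (fr_mem L h b)

private theorem trdeg_eq : Algebra.trdeg K (RF n K) = n := by
  have h1 : IntermediateField.adjoin K (Set.range (gen n K)) = ⊤ :=
    eq_top_of_gen_mem _ fun i => IntermediateField.subset_adjoin K _ ⟨i, rfl⟩
  have h2 : Algebra.IsAlgebraic (IntermediateField.adjoin K (Set.range (gen n K))) (RF n K) := by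
    rw [h1]
    constructor
    intro x
    exact isAlgebraic_algebraMap (⟨x, IntermediateField.mem_top⟩ : (⊤ : IntermediateField K (RF n K)))
  have alg : Algebra.IsAlgebraic (Algebra.adjoin K (Set.range (gen n K))) (RF n K) :=
    Algebra.IsAlgebraic.trans (Algebra.adjoin K (Set.range (gen n K)))
      (IntermediateField.adjoin K (Set.range (gen n K))) (RF n K)
  have hb : IsTranscendenceBasis K (gen n K) :=
    isTranscendenceBasis_iff_algebraicIndependent_isAlgebraic.2 ⟨algInd_gen, alg⟩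
  rw [← hb.cardinalMk_eq_trdeg]
  simp

/-- `n + 1` rational functions are algebraically dependent. -/
theorem not_algInd (u : Fin (n + 1) → RF n K) : ¬ AlgebraicIndependent K u := by
  intro h
  have h1 := h.cardinalMk_le_trdeg
  rw [trdeg_eq] at h1
  simp only [Cardinal.mk_fin, Nat.cast_le] at h1
  omega

/-- Unique factorisation: exponents are not positive. -/
private theorem expo {ι : Type} [Fintype ι] [DecidableEq ι] {P : ι → Pl n K} (hP : ∀ i, Irreducible (P i))
    (hd : ∀ i j, P i ∣ P j → i = j) {e : ι → ℤ} {c : K}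
    (h : ∏ i, fr (P i) ^ e i = algebraMap K (RF n K) c) (j : ι) : ¬ 0 < e j := by
  intro hj
  have h1 : fr (∏ i, P i ^ (e i).toNat) = fr (MvPolynomial.C c * ∏ i, P i ^ (-e i).toNat) := by
    have e1 : fr (∏ i, P i ^ (e i).toNat) = ∏ i, fr (P i) ^ (e i).toNat := by
      rw [fr, map_prod]
      exact Finset.prod_congr rfl fun i _ => map_pow _ _ _
    have e2 : fr (MvPolynomial.C c * ∏ i, P i ^ (-e i).toNat) =
        algebraMap K (RF n K) c * ∏ i, fr (P i) ^ (-e i).toNat := by
      rw [fr, map_mul, map_prod, ← fr_const]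
      congr 1
      exact Finset.prod_congr rfl fun i _ => map_pow _ _ _
    rw [e1, e2, ← h, ← Finset.prod_mul_distrib]
    refine Finset.prod_congr rfl fun i _ => ?_
    rw [← zpow_natCast, ← zpow_natCast, ← zpow_add₀ (fr_ne (hP i).ne_zero)]
    congr 1
    omega
  have h2 := fr_inj h1
  have hc : c ≠ 0 := by
    rintro rfl
    rw [map_zero] at h
    exact Finset.prod_ne_zero_iff.2 (fun i _ => zpow_ne_zero _ (fr_ne (hP i).ne_zero)) h
  have h3 : P j ∣ MvPolynomial.C c * ∏ i, P i ^ (-e i).toNat := by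
    rw [← h2]
    exact (dvd_pow_self _ (by omega)).trans (Finset.dvd_prod_of_mem _ (Finset.mem_univ j))
  have hp : Prime (P j) := (hP j).prime
  rcases hp.dvd_or_dvd h3 with h4 | h4
  · exact hp.not_isUnit (isUnit_of_dvd_unit h4 ((IsUnit.mk0 c hc).map MvPolynomial.C))
  · obtain ⟨i, -, hi⟩ := (Prime.dvd_finsetProd_iff hp _).1 h4
    have h5 := hd j i (hp.dvd_of_dvd_pow hi)
    subst h5
    rw [show (-e j).toNat = 0 by omega, pow_zero] at hi
    exact hp.not_isUnit (isUnit_of_dvd_one hi)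

/-- Many pairwise non-associated elements. -/
private theorem many {C : Pl n K → Prop} (hC : ∀ P, C P → Irreducible P)
    (h : ∀ Γ : Pl n K, Γ ≠ 0 → ∃ P, C P ∧ ¬ P ∣ Γ) (m : ℕ) :
    ∃ P : Fin m → Pl n K, (∀ i, C (P i)) ∧ ∀ i j, P i ∣ P j → i = j := by
  induction m with
  | zero => exact ⟨fun _ => 0, fun i => i.elim0, fun i => i.elim0⟩
  | succ m ih =>
    obtain ⟨P, h1, h2⟩ := ih
    obtain ⟨Q, h3, h4⟩ := h (∏ i, P i)
      (Finset.prod_ne_zero_iff.2 fun i _ => (hC _ (h1 i)).ne_zero)
    have h5 : ∀ i, ¬ Q ∣ P i := fun i hi =>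
      h4 (hi.trans (Finset.dvd_prod_of_mem _ (Finset.mem_univ i)))
    refine ⟨Fin.cons Q P, fun i => ?_, fun i j => ?_⟩
    · refine Fin.cases h3 h1 i
    · refine Fin.cases ?_ (fun i => ?_) i
      · refine Fin.cases (fun _ => rfl) (fun j hj => ?_) j
        exact absurd hj (h5 j)
      · refine Fin.cases (fun hj => ?_) (fun j hj => ?_) j
        · change P i ∣ Q at hj
          exact absurd (((hC _ (h1 i)).dvd_symm (hC _ h3)) hj) (h5 i)
        · rw [h2 i j hj]

end CanM

theorem stmtCan : StmtInd → StmtCanB → StmtCan := by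
  intro hA hB n K _ ρ hNoI 𝓑 h𝓑
  obtain ⟨s, hs⟩ := hB n K 𝓑 h𝓑
  by_contra hcon
  push Not at hcon
  obtain ⟨P', hP', hd'⟩ := CanM.many
    (C := fun P : Pl n K => Irreducible P ∧ ∃ a b : Pl n K, a ≠ 0 ∧ b ≠ 0 ∧
      fr b * ρ (fr P) = fr a * fr P ∧ ∀ Q : Pl n K, Irreducible Q → (Q ∣ a ∨ Q ∣ b) → Q ∣ 𝓑)
    (fun P h => h.1) (fun Γ hΓ => by
      obtain ⟨P, a, b, h1, h2, h3, h4, h5, h6⟩ := hcon Γ hΓ
      exact ⟨P, ⟨h1, a, b, h2, h3, h4, h5⟩, h6⟩) ((n + 1) * (s + 1))
  -- families indexed by pairs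
  let P : Fin (n + 1) × Fin (s + 1) → Pl n K := fun i => P' (finProdFinEquiv i)
  have hP := fun i : Fin (n + 1) × Fin (s + 1) => hP' (finProdFinEquiv i)
  have hd : ∀ i j, P i ∣ P j → i = j := fun i j h => finProdFinEquiv.injective (hd' _ _ h)
  choose hirr a b ha hb hab hQ using hP
  have hfam : ∀ l : Fin (n + 1), ∃ m : Fin (s + 1) → ℤ, m ≠ 0 ∧ ∃ γ : K,
      ρ (∏ i, fr (P (l, i)) ^ m i) = algebraMap K (RF n K) γ * ∏ i, fr (P (l, i)) ^ m i := fun l =>
    hs ρ (fun i => P (l, i)) (fun i => a (l, i)) (fun i => b (l, i)) (fun i => (hirr _).ne_zero)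
      (fun i => ha _) (fun i => hb _) (fun i => hab _) (fun i => hQ _)
  choose m hm γ hγ using hfam
  have hne : ∀ i, fr (P i) ≠ 0 := fun i => CanM.fr_ne (hirr i).ne_zero
  refine CanM.not_algInd _ (hA n K ρ hNoI (n + 1) (fun l => ∏ i, fr (P (l, i)) ^ m l i) γ
    (fun l => Finset.prod_ne_zero_iff.2 fun i _ => zpow_ne_zero _ (hne _)) hγ ?_)
  rintro e ⟨c, hc⟩
  have key : ∀ (e : Fin (n + 1) × Fin (s + 1) → ℤ) (c : K),
      ∏ i, fr (P i) ^ e i = algebraMap K (RF n K) c → ∀ i, e i = 0 := by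
    intro e c he i
    have h1 := CanM.expo hirr hd he i
    have h2 : ∏ i, fr (P i) ^ (-e i) = algebraMap K (RF n K) c⁻¹ := by
      rw [map_inv₀, ← he, ← Finset.prod_inv_distrib]
      exact Finset.prod_congr rfl fun i _ => zpow_neg _ _
    have h3 := CanM.expo hirr hd h2 i
    omega
  have hz := key (fun i => m i.1 i.2 * e i.1) c (by
    rw [← hc, Fintype.prod_prod_type]
    refine Finset.prod_congr rfl fun l _ => ?_
    rw [← Finset.prod_zpow]
    refine Finset.prod_congr rfl fun i _ => ?_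
    rw [zpow_mul])
  funext l
  obtain ⟨i, hi⟩ := Function.ne_iff.1 (hm l)
  have := hz (l, i)
  exact (mul_eq_zero.1 this).resolve_left hi

end Pool.Agent.Lib.MP_16285c_agN
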