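import Pool.Agent.Lib.MP_16285c_agN.DEG4a.Spec

/-!
# Theorem Z, CAN (C2): `StmtCanB`

Proof. `Q_1, …, Q_s` the prime factors of `𝓑`. A nonzero polynomial all whose irreducible factors divide `𝓑` is a constant
times a product of powers of the `Q_j`. So `a i / b i` is a constant times `∏ Q_j ^ M i j`; the integer matrix `M` has
more rows than columns, so its rows are linearly dependent.
-/

set_option autoImplicit false

namespace Pool.Agent.Lib.MP_16285c_agN

open Pool.Agent.Lib.MP_16285c_ag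

namespace CanBM

open UniqueFactorizationMonoid

/-- A nonzero polynomial whose irreducible factors divide `𝓑` is a unit times a product of powers. -/
theorem exists_prod {A : Type} [CommRing A] [IsDomain A] [UniqueFactorizationMonoid A] {𝓑 : A} (h𝓑 : 𝓑 ≠ 0)
    {s : ℕ} (Q : Fin s → A) (hQ : ∀ q ∈ factors 𝓑, ∃ j, Q j = q) (a : A) (ha : a ≠ 0)
    (h : ∀ p : A, Irreducible p → p ∣ a → p ∣ 𝓑) :
    ∃ (e : Fin s → ℕ), Associated a (∏ j, Q j ^ e j) := by
  classical
  induction a using UniqueFactorizationMonoid.induction_on_prime with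
  | h₁ => exact absurd rfl ha
  | h₂ x hx => exact ⟨0, by simpa using associated_one_iff_isUnit.2 hx⟩
  | h₃ a p ha' hp ih =>
    obtain ⟨e, he⟩ := ih ha' fun q hq hqa => h q hq (hqa.mul_left p)
    obtain ⟨q, hq, hpq⟩ := exists_mem_factors_of_dvd h𝓑 hp.irreducible (h p hp.irreducible (dvd_mul_right p a))
    obtain ⟨j, hj⟩ := hQ q hq
    refine ⟨e + Pi.single j 1, ?_⟩
    have h1 : (∏ i, Q i ^ (e + Pi.single j 1 : Fin s → ℕ) i) = Q j * ∏ i, Q i ^ e i := by
      simp only [Pi.add_apply, pow_add, Finset.prod_mul_distrib]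
      rw [mul_comm]
      congr 1
      rw [Finset.prod_eq_single j]
      · simp
      · intro b _ hb
        simp [hb]
      · simp
    rw [h1, hj]
    exact hpq.mul_mul he

/-- In the function field: a constant times a product of powers. -/
theorem exists_fr {n : ℕ} {K : Type} [Field K] {𝓑 : Pl n K} (h𝓑 : 𝓑 ≠ 0)
    {s : ℕ} (Q : Fin s → Pl n K) (hQ : ∀ q ∈ factors 𝓑, ∃ j, Q j = q) (a : Pl n K) (ha : a ≠ 0)
    (h : ∀ p : Pl n K, Irreducible p → p ∣ a → p ∣ 𝓑) :
    ∃ (e : Fin s → ℕ) (c : K), c ≠ 0 ∧ fr a = algebraMap K (RF n K) c * ∏ j, fr (Q j) ^ e j := by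
  obtain ⟨e, he⟩ := exists_prod h𝓑 Q hQ a ha h
  obtain ⟨u, hu⟩ := he.symm
  obtain ⟨c, hc, hc'⟩ := MvPolynomial.isUnit_iff_eq_C_of_isReduced.1 u.isUnit
  refine ⟨e, c, hc.ne_zero, ?_⟩
  rw [← hu, hc']
  unfold fr
  rw [map_mul, map_prod, mul_comm]
  simp only [map_pow]
  rfl

/-- Powers with exponents a sum. -/
theorem prod_zpow_sum {E ι : Type} [Field E] {x : E} (hx : x ≠ 0) (m : ι → ℤ) (s : Finset ι) :
    ∏ i ∈ s, x ^ m i = x ^ (∑ i ∈ s, m i) := by
  classical
  induction s using Finset.induction_on with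
  | empty => simp
  | insert i s hi ih => rw [Finset.prod_insert hi, Finset.sum_insert hi, zpow_add₀ hx, ih]

end CanBM

theorem stmtCanB : StmtCanB := by
  intro n K _ 𝓑 h𝓑
  classical
  set L := (UniqueFactorizationMonoid.factors 𝓑).toList with hL
  -- the list of the factors with an additional `1`
  let Q : Fin (L.length + 1) → Pl n K := Fin.cons 1 L.get
  have hQ : ∀ q ∈ UniqueFactorizationMonoid.factors 𝓑, ∃ j, Q j = q := by
    intro q hq
    obtain ⟨l, hl⟩ := List.mem_iff_get.1 (Multiset.mem_toList.2 hq)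
    exact ⟨l.succ, by simp only [Q, Fin.cons_succ]; exact hl⟩
  have hQ0 : ∀ j, Q j ≠ 0 := by
    intro j
    refine Fin.cases ?_ (fun n => ?_) j
    · simp [Q]
    · simp only [Q, Fin.cons_succ]
      exact (UniqueFactorizationMonoid.irreducible_of_factor _
        (Multiset.mem_toList.1 (List.get_mem L n))).ne_zero
  have hfr : ∀ {G : Pl n K}, G ≠ 0 → fr G ≠ 0 := fun hG h0 =>
    hG ((IsFractionRing.injective (Pl n K) (RF n K)) (by rw [map_zero]; exact h0))
  refine ⟨L.length + 1, ?_⟩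
  intro ρ P a b hP ha hb hrel hdiv
  choose e c hc he using fun i => CanBM.exists_fr h𝓑 Q hQ (a i) (ha i)
    (fun p hp hpa => hdiv i p hp (Or.inl hpa))
  choose f d hd hf using fun i => CanBM.exists_fr h𝓑 Q hQ (b i) (hb i)
    (fun p hp hpb => hdiv i p hp (Or.inr hpb))
  let M : Matrix (Fin (L.length + 1)) (Fin (L.length + 1 + 1)) ℤ := fun j i => (e i j : ℤ) - f i j
  obtain ⟨m, hn0, hn, -⟩ := Int.Matrix.exists_ne_zero_int_vec_norm_le M (by simp) (by simp)
  refine ⟨m, hn0, ∏ i, (c i / d i) ^ m i, ?_⟩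
  have hx : ∀ i, ρ (fr (P i)) = (algebraMap K (RF n K) (c i / d i) *
      ∏ j, fr (Q j) ^ M j i) * fr (P i) := by
    intro i
    have h1 := hrel i
    have hbi : fr (b i) ≠ 0 := hfr (hb i)
    have h2 : ρ (fr (P i)) = fr (a i) / fr (b i) * fr (P i) := by
      field_simp
      rw [mul_comm]
      exact h1
    rw [h2]
    congr 1
    rw [he i, hf i, map_div₀, mul_div_mul_comm, ← Finset.prod_div_distrib]
    congr 1
    refine Finset.prod_congr rfl fun j _ => ?_
    rw [show M j i = (e i j : ℤ) - f i j from rfl, zpow_sub₀ (hfr (hQ0 j)), zpow_natCast, zpow_natCast]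
  rw [map_prod, map_prod, ← Finset.prod_mul_distrib]
  simp only [map_zpow₀, hx, mul_zpow]
  rw [Finset.prod_mul_distrib, Finset.prod_mul_distrib, Finset.prod_mul_distrib]
  have h3 : ∏ i, (∏ j, fr (Q j) ^ M j i) ^ m i = 1 := by
    simp only [← Finset.prod_zpow, ← zpow_mul]
    rw [Finset.prod_comm]
    refine Finset.prod_eq_one fun j _ => ?_
    have h4 : ∏ i, fr (Q j) ^ (M j i * m i) = fr (Q j) ^ (∑ i, M j i * m i) := by
      exact CanBM.prod_zpow_sum (hfr (hQ0 j)) _ _
    rw [h4]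
    have h5 : ∑ i, M j i * m i = 0 := by
      have := congrFun hn j
      simpa [Matrix.mulVec, dotProduct] using this
    rw [h5, zpow_zero]
  rw [h3, mul_one]

end Pool.Agent.Lib.MP_16285c_agN
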