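import Pool.Agent.Lib.MP_16285c_agN.DEG4a.Spec

/-!
# MP_16285c: semi-invariant functions which are multiplicatively independent are algebraically independent
-/

set_option autoImplicit false

namespace Pool.Agent.Lib.MP_16285c_agN.IndM

open Pool.Agent.Lib.MP_16285c_agN

variable {n : ℕ} {K : Type} [Field K] {m : ℕ}

/-- The value of a monomial. -/
def mn {F : Type} [Field F] (r : Fin m → F) (α : Fin m →₀ ℕ) : F := ∏ i, r i ^ α i

theorem aeval_eq (r : Fin m → RF n K) (Φ : Pl m K) : MvPolynomial.aeval r Φ =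
    ∑ α ∈ Φ.support, algebraMap K (RF n K) (Φ.coeff α) * mn r α := by
  rw [MvPolynomial.aeval_def, MvPolynomial.eval₂_eq']
  rfl

theorem mn_ne {F : Type} [Field F] (r : Fin m → F) (hr : ∀ i, r i ≠ 0) (α : Fin m →₀ ℕ) :
    mn r α ≠ 0 := Finset.prod_ne_zero_iff.2 fun i _ => pow_ne_zero _ (hr i)

/-- A relation with the smallest number of monomials. -/
theorem min_rel (r : Fin m → RF n K) (h : ¬ AlgebraicIndependent K r) :
    ∃ Φ : Pl m K, Φ ≠ 0 ∧ MvPolynomial.aeval r Φ = 0 ∧
      ∀ Ψ : Pl m K, MvPolynomial.aeval r Ψ = 0 → Ψ.support.card < Φ.support.card → Ψ = 0 := by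
  classical
  have hex : ∃ n : ℕ, ∃ Φ : Pl m K, Φ ≠ 0 ∧ MvPolynomial.aeval r Φ = 0 ∧ Φ.support.card = n := by
    rw [algebraicIndependent_iff] at h
    push Not at h
    obtain ⟨Φ, h1, h2⟩ := h
    exact ⟨_, Φ, h2, h1, rfl⟩
  obtain ⟨Φ, h1, h2, h3⟩ := Nat.find_spec hex
  refine ⟨Φ, h1, h2, ?_⟩
  intro Ψ hΨ hc
  by_contra hne
  rw [h3] at hc
  exact Nat.find_min hex hc ⟨Ψ, hne, hΨ, rfl⟩

end Pool.Agent.Lib.MP_16285c_agN.IndM

namespace Pool.Agent.Lib.MP_16285c_agN

open IndM

theorem stmtInd : StmtInd := by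
  intro n K _ ρ hno m r g hr hg hind
  classical
  by_contra hcon
  obtain ⟨Φ, hΦ0, hΦ, hmin⟩ := min_rel r hcon
  have hρi : Function.Injective ρ := ρ.toRingHom.injective
  have hg0 : ∀ i, g i ≠ 0 := by
    intro i h0
    have := hg i
    rw [h0, map_zero, zero_mul] at this
    exact hr i (hρi (by rw [this, map_zero]))
  have hρm : ∀ α, ρ (mn r α) = algebraMap K (RF n K) (mn g α) * mn r α := by
    intro α
    simp only [mn, map_prod, map_pow, hg, mul_pow, Finset.prod_mul_distrib]
  obtain ⟨β, hβ⟩ : Φ.support.Nonempty := by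
    rw [Finset.nonempty_iff_ne_empty, Ne, MvPolynomial.support_eq_empty]
    exact hΦ0
  -- the second monomial
  obtain ⟨α, hα, hαβ⟩ : ∃ α ∈ Φ.support, α ≠ β := by
    by_contra hno2
    push Not at hno2
    have hs : Φ.support = {β} := by
      apply Finset.eq_singleton_iff_unique_mem.2
      exact ⟨hβ, hno2⟩
    rw [aeval_eq, hs, Finset.sum_singleton] at hΦ
    rcases mul_eq_zero.1 hΦ with h | h
    · rw [FaithfulSMul.algebraMap_eq_zero_iff] at h
      exact (MvPolynomial.mem_support_iff.1 hβ) h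
    · exact mn_ne r hr β h
  set Θ : Pl m K := ∑ α ∈ Φ.support, MvPolynomial.monomial α (Φ.coeff α * (mn g α - mn g β)) with hΘ
  have hcoeff : ∀ δ, Θ.coeff δ = Φ.coeff δ * (mn g δ - mn g β) := by
    intro δ
    rw [hΘ, MvPolynomial.coeff_sum]
    simp only [MvPolynomial.coeff_monomial]
    rw [Finset.sum_ite_eq']
    split_ifs with h
    · rfl
    · rw [MvPolynomial.notMem_support_iff.1 h, zero_mul]
  have hsub : Θ.support ⊆ Φ.support.erase β := by
    intro δ hδ
    rw [MvPolynomial.mem_support_iff, hcoeff] at hδ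
    rw [Finset.mem_erase, MvPolynomial.mem_support_iff]
    refine ⟨?_, left_ne_zero_of_mul hδ⟩
    rintro rfl
    apply hδ
    rw [sub_self, mul_zero]
  have hΘv : MvPolynomial.aeval r Θ = 0 := by
    have e1 : MvPolynomial.aeval r Θ = ρ (MvPolynomial.aeval r Φ) -
        algebraMap K (RF n K) (mn g β) * MvPolynomial.aeval r Φ := by
      rw [aeval_eq r Φ, hΘ, map_sum, map_sum, Finset.mul_sum, ← Finset.sum_sub_distrib]
      apply Finset.sum_congr rfl
      intro δ _
      rw [map_mul ρ, AlgHom.commutes, hρm, MvPolynomial.aeval_monomial]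
      rw [map_mul (algebraMap K (RF n K)), map_sub (algebraMap K (RF n K))]
      have : (δ.prod fun i k => r i ^ k) = mn r δ := by
        rw [mn, Finsupp.prod_fintype]
        intro i
        exact pow_zero _
      rw [this]
      ring
    rw [e1, hΦ, map_zero, mul_zero, sub_zero]
  have hΘ0 : Θ = 0 := by
    apply hmin Θ hΘv
    calc Θ.support.card ≤ (Φ.support.erase β).card := Finset.card_le_card hsub
      _ < Φ.support.card := Finset.card_erase_lt_of_mem hβ
  have hgg : mn g α = mn g β := by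
    have := hcoeff α
    rw [hΘ0, MvPolynomial.coeff_zero] at this
    have h2 := (mul_eq_zero.1 this.symm).resolve_left (MvPolynomial.mem_support_iff.1 hα)
    exact sub_eq_zero.1 h2
  -- the invariant function
  have hinv : ρ (mn r α / mn r β) = mn r α / mn r β := by
    rw [map_div₀, hρm, hρm, hgg]
    have h1 : algebraMap K (RF n K) (mn g β) ≠ 0 := by
      rw [Ne, FaithfulSMul.algebraMap_eq_zero_iff]
      exact mn_ne g hg0 β
    rw [mul_div_mul_left _ _ h1]
  obtain ⟨c, hc⟩ := hno _ hinv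
  have hz : mn r α / mn r β = ∏ i, r i ^ ((α i : ℤ) - β i) := by
    rw [mn, mn, ← Finset.prod_div_distrib]
    refine Finset.prod_congr rfl fun i _ => ?_
    rw [zpow_sub₀ (hr i), zpow_natCast, zpow_natCast]
  have h1 := hind (fun i => (α i : ℤ) - β i) ⟨c, by rw [← hz, hc]⟩
  apply hαβ
  ext i
  have h2 := congrFun h1 i
  simp only [Pi.zero_apply] at h2
  omega

end Pool.Agent.Lib.MP_16285c_agN
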